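import Pool.Agent.Y579.DC.Sep
import Pool.Agent.Y579.DC.Pi2

/-!
# Completeness of the density metric when all sets are computable

There is a model of `RCA₀ + B Σ⁰₂` in which the density metric is complete although every set of
the model is computable in the strongest sense: the set and its complement are defined by
Diophantine equations with number parameters and without set parameters. Moreover all true
`∀∃` sentences of arithmetic hold in the model, and the domination principle `DOM`, the
cohesiveness principle `COH`, the separation principle (that is, weak König's lemma) and the
induction scheme for arithmetical formulas fail.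

So over `RCA₀ + B Σ⁰₂` (and over `RCA₀`), also together with the totality of all computable
functions, completeness of the density metric implies neither `DOM` nor `COH` nor arithmetical
induction nor the existence of any noncomputable set.

The structures for second-order arithmetic are in `Pool.Agent.Helper617.RM.Defs`, completeness of
the density metric (`DensityComplete`), `DOM` and `ArithInd` in `Pool.Agent.H869R3.DM.Defs`, `COH`
in `Pool.Agent.Helper617.CR.Defs`, `SigmaTwoBounding` in `Pool.Agent.Helper617.FS.Defs`.
-/

namespace Pool.Agent.Results.MP_d53a0a_lc.CompletenessWithComputableSets

open Pool.Agent.Helper617.RM Pool.Agent.Helper617.FS Pool.Agent.H869R3.DM Pool.Agent.Y579.DC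

/-- There is a model `N` of `RCA₀ + B Σ⁰₂` and of all true `∀∃` sentences such that the density
metric is complete in `N`, every set of `N` and its complement are Diophantine in `N` (without set
parameters), and `DOM`, `COH`, the separation principle and arithmetical induction fail in `N`. -/
theorem result : ∃ N : L2Structure.{0},
    IsModelRCA0 N ∧ SigmaTwoBounding N ∧ TrueForallExists N ∧ DensityComplete N ∧
      (∀ X ∈ N.Sets, IsDiophantine N X ∧ IsDiophantine N Xᶜ) ∧
      ¬ DOM N ∧ ¬ Pool.Agent.Helper617.CR.COH N ∧ ¬ Separation N ∧ ¬ ArithInd N :=
  ⟨NN, isModel, bounding2, trueForallExists, complete, fun _ hX => ⟨dio hX, dio_compl hX⟩,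
    not_dom, not_coh, not_separation, not_ind⟩

end Pool.Agent.Results.MP_d53a0a_lc.CompletenessWithComputableSets
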